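import Pool.Agent.helper47.TFQ.Spec

set_option autoImplicit false

namespace Pool.Agent.TFQ

open Polynomial Pool.Agent.GJ Pool.Agent.TK

noncomputable section

theorem QD4_chi {F : Type} [Field F] {n : ℕ} (α : ℕ) (μ : Fin (n + 1) → ℕ) (ρ : Fˣ)
    (x : Fin (n + 1) → ℕ) :
    chq α μ (fun j => (((ρ ^ x j : Fˣ)) : F)) =
      ((ρ ^ (α * ∑ j, μ j * x j) : Fˣ) : F) := by
  unfold chq
  rw [Finset.mul_sum, ← Finset.prod_pow_eq_pow_sum, Units.coe_prod]
  refine Finset.prod_congr rfl fun j _ => ?_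
  rw [← Units.val_pow_eq_pow_val, ← pow_mul]
  congr 2
  ring

theorem QD4 : QD4_stmt := by
  intro F _ _ _ l α n _ μ hla hα hμ e he
  obtain ⟨ρ, hρ⟩ := IsCyclic.exists_generator (α := Fˣ)
  have hord : orderOf ρ = cq F - 1 := by
    rw [orderOf_eq_card_of_forall_mem_zpowers hρ, Nat.card_eq_fintype_card, Fintype.card_units]
  have hl : l.Prime := Fact.out
  -- the basic consequence
  have key : ∀ x : Fin (n + 1) → ℕ, l ∣ ∑ j, μ j * x j → l * α ∣ ∑ j, x j * e j := by
    intro x hx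
    have h1 : (fun j => ρ ^ x j) ∈ HQ (F := F) α μ := by
      unfold HQ
      rw [Finset.mem_filter]
      refine ⟨Finset.mem_univ _, ?_⟩
      rw [QD4_chi]
      have : ρ ^ (α * ∑ j, μ j * x j) = 1 := by
        rw [← orderOf_dvd_iff_pow_eq_one, hord, ← hla, mul_comm l α]
        exact Nat.mul_dvd_mul_left α hx
      rw [this, Units.val_one]
    have h2 := he _ h1
    have h3 : ∏ j, (ρ ^ x j) ^ e j = ρ ^ (∑ j, x j * e j) := by
      rw [← Finset.prod_pow_eq_pow_sum]
      refine Finset.prod_congr rfl fun j _ => ?_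
      rw [← pow_mul]
    rw [h3, ← orderOf_dvd_iff_pow_eq_one, hord, ← hla] at h2
    exact h2
  -- `α ∣ e j`
  have hae : ∀ j, α ∣ e j := by
    intro j
    have h1 := key (Pi.single j l) (by
      rw [Finset.sum_eq_single j]
      · rw [Pi.single_eq_same]; exact Dvd.intro_left _ rfl
      · intro i _ hi
        rw [Pi.single_eq_of_ne hi, mul_zero]
      · simp)
    rw [Finset.sum_eq_single j (fun i _ hi => by rw [Pi.single_eq_of_ne hi, zero_mul]) (by simp),
      Pi.single_eq_same] at h1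
    exact Nat.dvd_of_mul_dvd_mul_left hl.pos h1
  choose e' he' using hae
  -- congruences
  have hcong : ∀ j, (l : ℤ) ∣ (μ 0 : ℤ) * e' j - μ j * e' 0 := by
    intro j
    by_cases hj : j = 0
    · subst hj
      simp
    have h1 := key (Pi.single 0 ((l - 1) * μ j) + Pi.single j (μ 0)) (by
      simp only [Pi.add_apply, mul_add, Finset.sum_add_distrib]
      rw [Finset.sum_eq_single 0 (fun i _ hi => by rw [Pi.single_eq_of_ne hi, mul_zero]) (by simp),
        Finset.sum_eq_single j (fun i _ hi => by rw [Pi.single_eq_of_ne hi, mul_zero]) (by simp),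
        Pi.single_eq_same, Pi.single_eq_same]
      refine ⟨μ 0 * μ j, ?_⟩
      obtain ⟨l', hl'⟩ : ∃ l', l = l' + 1 := ⟨l - 1, by have := hl.pos; omega⟩
      rw [hl', Nat.add_sub_cancel]
      ring)
    simp only [Pi.add_apply, add_mul, Finset.sum_add_distrib] at h1
    rw [Finset.sum_eq_single 0 (fun i _ hi => by rw [Pi.single_eq_of_ne hi, zero_mul]) (by simp),
      Finset.sum_eq_single j (fun i _ hi => by rw [Pi.single_eq_of_ne hi, zero_mul]) (by simp),
      Pi.single_eq_same, Pi.single_eq_same, he' 0, he' j] at h1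
    have h2 : α * l ∣ α * ((l - 1) * μ j * e' 0 + μ 0 * e' j) := by
      have h3 : α * ((l - 1) * μ j * e' 0 + μ 0 * e' j) =
          (l - 1) * μ j * (α * e' 0) + μ 0 * (α * e' j) := by ring
      rw [h3, mul_comm α l]
      exact h1
    have h4 := Nat.dvd_of_mul_dvd_mul_left hα h2
    have h5 : (l : ℤ) ∣ (((l - 1) * μ j * e' 0 + μ 0 * e' j : ℕ) : ℤ) := Int.natCast_dvd_natCast.2 h4
    push_cast [Nat.cast_sub hl.one_lt.le] at h5
    have h6 : (μ 0 : ℤ) * e' j - μ j * e' 0 =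
        (((l : ℤ) - 1) * μ j * e' 0 + μ 0 * e' j) - l * (μ j * e' 0) := by ring
    rw [h6]
    exact dvd_sub h5 (Dvd.intro _ rfl)
  -- the inverse of `μ 0`
  have hcop : IsCoprime (μ 0 : ℤ) (l : ℤ) := by
    rw [Nat.isCoprime_iff_coprime]
    exact (Nat.Coprime.symm ((hl.coprime_iff_not_dvd).2 fun h =>
      absurd (Nat.le_of_dvd (hμ 0).1 h) (by have := (hμ 0).2; omega)))
  obtain ⟨s, t, hst⟩ := hcop
  have hlz : (0 : ℤ) < l := by exact_mod_cast hl.pos
  set k : ℕ := (((s * e' 0) % l : ℤ)).toNat with hk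
  have hk0 : 0 ≤ (s * e' 0) % (l : ℤ) := Int.emod_nonneg _ hlz.ne'
  have hk1 : (s * e' 0) % (l : ℤ) < l := Int.emod_lt_of_pos _ hlz
  have hkz : (k : ℤ) = (s * e' 0) % (l : ℤ) := Int.toNat_of_nonneg hk0
  refine ⟨k, by have : (k : ℤ) < l := by rw [hkz]; exact hk1
                exact_mod_cast this, fun j => ?_⟩
  have hkd : (l : ℤ) ∣ s * e' 0 - k := by
    rw [hkz]
    exact Int.dvd_self_sub_emod
  have h1 : (l : ℤ) ∣ (e' j : ℤ) - k * μ j := by
    have h2 : (e' j : ℤ) - k * μ j = s * ((μ 0 : ℤ) * e' j - μ j * e' 0) + l * (t * e' j) +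
        μ j * (s * e' 0 - k) := by
      linear_combination (-(e' j : ℤ)) * hst
    rw [h2]
    exact dvd_add (dvd_add (Dvd.dvd.mul_left (hcong j) _) (Dvd.intro _ rfl)) (Dvd.dvd.mul_left hkd _)
  rw [he' j, ← hla]
  push_cast
  have h3 : (α : ℤ) * e' j - k * μ j * α = ((e' j : ℤ) - k * μ j) * α := by ring
  rw [h3]
  exact mul_dvd_mul_right h1 _

end

end Pool.Agent.TFQ
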