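import Pool.Agent.helper47.TFQ.Spec

/-! # Module gk:QP1 -/

set_option autoImplicit false

namespace Pool.Agent.TFQ

open Polynomial Pool.Agent.GJ Pool.Agent.TK
open Pool.Agent.FJ (VT Om chiO IsFrobO rf rs)
open Pool.Agent.TD (zK)


noncomputable section

theorem QP1_monic {F : Type} [Field F] {k : ℕ} (c : Fin k → F) :
    (gq c).Monic ∧ (gq c).natDegree = k := by
  have hd : (∑ i : Fin k, C (c i) * X ^ (i : ℕ) : F[X]).degree < k := degree_sum_fin_lt c
  refine ⟨monic_X_pow_add hd, ?_⟩
  unfold gq
  apply natDegree_eq_of_degree_eq_some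
  rw [degree_add_eq_left_of_degree_lt, degree_X_pow]
  rw [degree_X_pow]
  exact hd

theorem QP1_coeff {F : Type} [Field F] {k : ℕ} (c : Fin k → F) (i : Fin k) : (gq c).coeff i = c i := by
  unfold gq
  rw [coeff_add, coeff_X_pow, if_neg (ne_of_lt i.2), zero_add, finsetSum_coeff]
  rw [Finset.sum_eq_single i]
  · rw [coeff_C_mul, coeff_X_pow, if_pos rfl, mul_one]
  · intro j _ hj
    rw [coeff_C_mul, coeff_X_pow, if_neg, mul_zero]
    exact fun h => hj (Fin.ext h.symm)
  · intro h
    exact absurd (Finset.mem_univ i) h

theorem QP1_as {F : Type} [Field F] {k : ℕ} (g : F[X]) (hg : g.Monic) (hk : g.natDegree = k) :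
    gq (fun i : Fin k => g.coeff i) = g := by
  subst hk
  unfold gq
  rw [← Finset.sum_range (fun i => C (g.coeff i) * X ^ i)]
  exact hg.as_sum.symm

theorem QP1 : QP1_stmt := by
  intro F _ _ _ n a ha
  have hp1 : 0 < cq F - 1 := by
    have := Fintype.one_lt_card (α := F)
    show 0 < Fintype.card F - 1
    omega
  have key : (cq F - 1) * ∑ k ∈ Finset.range (n + 1), (Gq a k).card = (cq F - 1) ^ (n + 1) := by
    have h1 : ((Finset.univ : Finset Fˣ) ×ˢ
        ((Finset.univ : Finset (Fin (n + 1))).sigma fun k => Gq a (k : ℕ))).card =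
        (cq F - 1) * ∑ k ∈ Finset.range (n + 1), (Gq a k).card := by
      rw [Finset.card_product, Finset.card_sigma, Finset.card_univ, Fintype.card_units,
        Finset.sum_range (fun k => (Gq a k).card)]
    have h2 : (Finset.univ : Finset (Fin (n + 1) → Fˣ)).card = (cq F - 1) ^ (n + 1) := by
      rw [Finset.card_univ, Fintype.card_fun, Fintype.card_units, Fintype.card_fin]
    rw [← h1, ← h2]
    have hne : ∀ x ∈ (Finset.univ : Finset Fˣ) ×ˢ
        ((Finset.univ : Finset (Fin (n + 1))).sigma fun k => Gq a (k : ℕ)),
        ∀ j, (x.1 : F) * (gq x.2.2).eval (a j) ≠ 0 := by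
      intro x hx j
      rw [Finset.mem_product, Finset.mem_sigma] at hx
      exact mul_ne_zero x.1.ne_zero ((Finset.mem_filter.mp hx.2.2).2 j)
    refine Finset.card_bij (fun x hx => fun j => Units.mk0 _ (hne x hx j)) ?_ ?_ ?_
    · intro x hx
      exact Finset.mem_univ _
    · rintro ⟨u, ⟨k, c⟩⟩ hx ⟨u', ⟨k', c'⟩⟩ hx' h
      have hev : ∀ j, (u : F) * (gq c).eval (a j) = (u' : F) * (gq c').eval (a j) := by
        intro j
        have := congrArg (Units.val) (congrFun h j)
        simpa using this
      have hpoly : C (u : F) * gq c = C (u' : F) * gq c' := by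
        refine eq_of_degree_sub_lt_of_eval_finset_eq (Finset.univ.image a) ?_ ?_
        · rw [Finset.card_image_of_injective _ ha, Finset.card_univ, Fintype.card_fin]
          refine lt_of_le_of_lt (degree_sub_le _ _) ?_
          rw [max_lt_iff]
          constructor
          · refine lt_of_le_of_lt degree_le_natDegree ?_
            refine lt_of_le_of_lt (WithBot.coe_le_coe.mpr (natDegree_C_mul_le _ _)) ?_
            rw [(QP1_monic c).2]
            exact WithBot.coe_lt_coe.mpr k.2
          · refine lt_of_le_of_lt degree_le_natDegree ?_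
            refine lt_of_le_of_lt (WithBot.coe_le_coe.mpr (natDegree_C_mul_le _ _)) ?_
            rw [(QP1_monic c').2]
            exact WithBot.coe_lt_coe.mpr k'.2
        · intro x hx
          rw [Finset.mem_image] at hx
          obtain ⟨j, -, rfl⟩ := hx
          rw [eval_C_mul, eval_C_mul]
          exact hev j
      have hlead := congrArg leadingCoeff hpoly
      rw [leadingCoeff_mul, leadingCoeff_mul, leadingCoeff_C, leadingCoeff_C,
        (QP1_monic c).1.leadingCoeff, (QP1_monic c').1.leadingCoeff, mul_one, mul_one] at hlead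
      have hu : u = u' := Units.ext hlead
      subst hu
      have hg : gq c = gq c' := by
        have hC : C (u : F) ≠ 0 := C_ne_zero.mpr u.ne_zero
        exact mul_left_cancel₀ hC hpoly
      have hkk : (k : ℕ) = k' := by
        rw [← (QP1_monic c).2, ← (QP1_monic c').2, hg]
      have hkk' : k = k' := Fin.ext hkk
      subst hkk'
      have hcc : c = c' := by
        funext i
        rw [← QP1_coeff c i, ← QP1_coeff c' i, hg]
      subst hcc
      rfl
    · intro w _
      set G : F[X] := Lagrange.interpolate Finset.univ a (fun j => (w j : F)) with hG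
      have hinj : Set.InjOn a (↑(Finset.univ : Finset (Fin (n + 1)))) := ha.injOn
      have hGev : ∀ j, G.eval (a j) = w j := fun j =>
        Lagrange.eval_interpolate_at_node _ hinj (Finset.mem_univ j)
      have hG0 : G ≠ 0 := by
        intro h0
        have := hGev 0
        rw [h0, eval_zero] at this
        exact (w 0).ne_zero this.symm
      have hdeg : G.natDegree < n + 1 := by
        have h3 := Lagrange.degree_interpolate_lt (fun j => (w j : F)) hinj
        rw [Finset.card_univ, Fintype.card_fin] at h3
        exact (natDegree_lt_iff_degree_lt hG0).mpr h3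
      have hu0 : G.leadingCoeff ≠ 0 := leadingCoeff_ne_zero.mpr hG0
      set g : F[X] := C (G.leadingCoeff)⁻¹ * G with hg
      have hgm : g.Monic := monic_C_mul_of_mul_leadingCoeff_eq_one (inv_mul_cancel₀ hu0)
      have hgd : g.natDegree = G.natDegree :=
        natDegree_C_mul (inv_ne_zero hu0)
      set k : Fin (n + 1) := ⟨G.natDegree, hdeg⟩ with hk
      have hgk : gq (fun i : Fin (k : ℕ) => g.coeff i) = g := QP1_as g hgm hgd
      have hmul : ∀ j, G.leadingCoeff * g.eval (a j) = w j := by
        intro j
        rw [hg, eval_C_mul, ← mul_assoc, mul_inv_cancel₀ hu0, one_mul, hGev]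
      refine ⟨(Units.mk0 _ hu0, ⟨k, fun i => g.coeff i⟩), ?_, ?_⟩
      · rw [Finset.mem_product, Finset.mem_sigma]
        refine ⟨Finset.mem_univ _, Finset.mem_univ _, ?_⟩
        refine Finset.mem_filter.mpr ⟨Finset.mem_univ _, ?_⟩
        intro j
        show (gq (fun i : Fin (k : ℕ) => g.coeff i)).eval (a j) ≠ 0
        rw [hgk]
        intro h0
        have := hmul j
        rw [h0, mul_zero] at this
        exact (w j).ne_zero this.symm
      · funext j
        apply Units.ext
        show G.leadingCoeff * (gq (fun i : Fin (k : ℕ) => g.coeff i)).eval (a j) = w j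
        rw [hgk]
        exact hmul j
  rw [pow_succ, mul_comm ((cq F - 1) ^ n)] at key
  exact Nat.eq_of_mul_eq_mul_left hp1 key

end

end Pool.Agent.TFQ
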