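import Pool.Agent.helper47.TFQ.Spec2
import Pool.Agent.helper68.TFQ.QPL

/-! # Project tfq, modules QPF, QP2D: the places (the proof is the one of helper68, QPL.lean, for families) -/

set_option autoImplicit false

namespace Pool.Agent.TFQ

open Polynomial Pool.Agent.GJ Pool.Agent.TK
open Pool.Agent.FJ (VT Om chiO IsFrobO rf rs)
open Pool.Agent.TD (zK)

noncomputable section

theorem QPF (hB1 : FJ.B1_stmt) (hC6 : FJ.C6_stmt) : QPF_stmt := by
  classical
  intro l _ I _ n a hinj hl2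
  have hlp : l.Prime := Fact.out
  have : NeZero l := ⟨hlp.ne_zero⟩
  choose d1 hd1 hd2 using hC6.1
  set DD : ℕ := l * (∏ i : I, ∏ j, d1 (a i j)) *
    (∏ i : I, ∏ j, ∏ j', d1 ((a i j - a i j')⁻¹)) with hDD
  have hDD0 : 0 < DD := by
    refine Nat.mul_pos (Nat.mul_pos hlp.pos ?_) ?_
    · exact Finset.prod_pos fun i _ => Finset.prod_pos fun j _ => hd1 _
    · exact Finset.prod_pos fun i _ => Finset.prod_pos fun j _ =>
        Finset.prod_pos fun j' _ => hd1 _
  have hv1 : l ∣ DD := (Dvd.intro _ rfl).mul_right _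
  have hv3 : ∀ i j, d1 (a i j) ∣ DD := fun i j =>
    (((Finset.dvd_prod_of_mem (fun j => d1 (a i j)) (Finset.mem_univ j)).trans
      (Finset.dvd_prod_of_mem (fun i => ∏ j, d1 (a i j)) (Finset.mem_univ i))).mul_left
        _).mul_right _
  have hv4 : ∀ i j j', d1 ((a i j - a i j')⁻¹) ∣ DD := fun i j j' =>
    ((Finset.dvd_prod_of_mem (fun j' => d1 ((a i j - a i j')⁻¹)) (Finset.mem_univ j')).trans
      ((Finset.dvd_prod_of_mem (fun j => ∏ j', d1 ((a i j - a i j')⁻¹))
        (Finset.mem_univ j)).trans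
      (Finset.dvd_prod_of_mem (fun i => ∏ j, ∏ j', d1 ((a i j - a i j')⁻¹))
        (Finset.mem_univ i)))).mul_left _
  refine ⟨DD, hDD0, ?_⟩
  intro p M _ O _ σ hM hFrob hFix hzeta hne
  have hlO : ((l : ℕ) : rf O) ≠ 0 := QPL_cast hv1 hne
  have : NeZero ((l : ℕ) : rf O) := ⟨hlO⟩
  have : IsAlgClosed (rf O) := (hB1 Om O).1
  letI : Algebra (ZMod p) (rf O) := ZMod.algebra (rf O) p
  letI : Fintype (GaloisField p M) := Fintype.ofFinite _
  have hQ : cq (GaloisField p M) = p ^ M := by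
    show Fintype.card _ = _
    rw [← Nat.card_eq_fintype_card, GaloisField.card p M hM.ne']
  let e : GaloisField p M →+* rf O :=
    ((IsAlgClosed.lift : GaloisField p M →ₐ[ZMod p] rf O) : GaloisField p M →+* rf O)
  have hfixr : ∀ x : O, σ (x : Om) = x → ∃ a : GaloisField p M, e a = rs O x := by
    intro x hx
    obtain ⟨y, hy1, hy2⟩ := hFrob x
    have hyx : y = x := Subtype.ext (by rw [hy1, hx])
    refine QPL_range e _ ?_
    rw [hQ, ← hy2, hyx]
  have : NeZero ((l : ℕ) : Om) := ⟨by exact_mod_cast hlp.ne_zero⟩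
  obtain ⟨z, hz⟩ : ∃ z : Om, IsPrimitiveRoot z l := by
    obtain ⟨z, hz⟩ := IsAlgClosed.exists_root (cyclotomic l Om) (by
      rw [degree_cyclotomic]
      have := Nat.totient_pos.mpr hlp.pos
      exact_mod_cast this.ne')
    exact ⟨z, isRoot_cyclotomic_iff.mp hz⟩
  have hdvd : l ∣ cq (GaloisField p M) - 1 := by
    obtain ⟨y0, hy0, hy0p⟩ := QPL_prim O l hz
    obtain ⟨w, hw⟩ := hfixr y0 (by rw [hy0]; exact hzeta z hz.pow_eq_one)
    have hwp : IsPrimitiveRoot w l := by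
      rw [← hw] at hy0p
      exact hy0p.of_map_of_injective e.injective
    refine hwp.dvd_of_pow_eq_one _ ?_
    exact FiniteField.pow_card_sub_one_eq_one w (hwp.ne_zero hlp.ne_zero)
  obtain ⟨α, hα⟩ := hdvd
  have hα0 : 0 < α := by
    rcases Nat.eq_zero_or_pos α with h0 | h0
    · have h1 := Fintype.one_lt_card (α := GaloisField p M)
      rw [h0, mul_zero] at hα
      have h2 : Fintype.card (GaloisField p M) - 1 = 0 := hα
      omega
    · exact h0
  obtain ⟨χ, hχ1, hχ2⟩ := QPL_char O e l α hα.symm hα0 hz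
  have haO : ∀ i j, a i j ∈ O := fun i j => hd2 _ O (QPL_cast (hv3 i j) hne)
  have hiO : ∀ i j j', (a i j - a i j')⁻¹ ∈ O := fun i j j' =>
    hd2 _ O (QPL_cast (hv4 i j j') hne)
  choose A hA using fun i j => hfixr ⟨a i j, haO i j⟩ (hFix i j)
  refine ⟨GaloisField p M, inferInstance, inferInstance, inferInstance, α, e, χ, A, hQ, fun i => ?_⟩
  refine ⟨hl2, hα.symm, hα0, hχ1, hχ2, ?_, hFix i, hzeta, ?_, ?_⟩
  · rw [hQ]
    exact hFrob
  · intro j
    exact ⟨⟨a i j, haO i j⟩, rfl, (hA i j).symm⟩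
  · intro j j' hjj
    by_contra hne'
    have h9 : rs O ⟨a i j, haO i j⟩ = rs O ⟨a i j', haO i j'⟩ := by
      rw [← hA, ← hA, hjj]
    have h10 : ((⟨a i j, haO i j⟩ : O) - ⟨a i j', haO i j'⟩) * ⟨_, hiO i j j'⟩ = 1 := by
      apply Subtype.ext
      show (a i j - a i j') * (a i j - a i j')⁻¹ = 1
      exact mul_inv_cancel₀ (sub_ne_zero.2 fun h => hne' (hinj i h))
    have h11 := congrArg (rs O) h10
    rw [map_mul, map_sub, h9, sub_self, zero_mul, map_one] at h11
    exact zero_ne_one h11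

theorem QP2D (hQPF : QPF_stmt) : QP2D_stmt := by
  intro l _ D D' hl2
  obtain ⟨D0, hD0, h⟩ := hQPF l (Fin D.k ⊕ Fin D'.k) (Sum.elim D.n D'.n)
    (fun i => match i with
      | Sum.inl i => D.a i
      | Sum.inr i => D'.a i)
    (fun i => match i with
      | Sum.inl i => (D.good i).inj
      | Sum.inr i => (D'.good i).inj) hl2
  refine ⟨D0, hD0, ?_⟩
  intro p M _ O _ σ hM hF hfix hfix' hz hne
  obtain ⟨F, i1, i2, i3, α, e, χ, A, hQ, hA⟩ := h p M O σ hM hF
    (fun i => match i with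
      | Sum.inl i => hfix i
      | Sum.inr i => hfix' i) hz hne
  exact ⟨F, i1, i2, i3, α, e, χ, fun i => A (Sum.inl i), fun i => A (Sum.inr i), hQ,
    fun i => hA (Sum.inl i), fun i => hA (Sum.inr i)⟩

end

end Pool.Agent.TFQ
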