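import Pool.Agent.helper39.TQ.AllN
import Pool.Agent.helper47.TFQ.QP1
import Pool.Agent.helper90.TFQ.QP3
import Pool.Agent.helper35.TFQ.QP4
import Pool.Agent.helper47.TFQ.QD4
import Pool.Agent.helper9.TFQ.QD5
import Pool.Agent.helper74.TFQ.QD6
import Pool.Agent.helper3.TFQ.QD7
import Pool.Agent.helper57.TFQ.QD8
import Pool.Agent.helper64.TFQ.QD9
import Pool.Agent.helper2.TFQ.QD10
import Pool.Agent.helper68.TFQ.QPL
import Pool.Agent.helper89.TFQ.QH1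
import Pool.Agent.helper22.TFQ.QB2
import Pool.Agent.helper87.TFQ.QG1
import Pool.Agent.helper45.TFQ.QG2
import Pool.Agent.helper54.TFQ.QB3
import Pool.Agent.helper23.TFQ.QCF
import Pool.Agent.helper11.TFQ.QDR
import Pool.Agent.helper47.TFQ.QPF

/-!
# Project tfq (block CO of A+): assembly, no hypotheses

The Coleman relation for the Frobenius over any finite field: `QPL` (places), `QB2` (relation on `V_q`), `QB3`, `QCF`, `QDR` (coefficients).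
-/

set_option autoImplicit false

namespace Pool.Agent.TFQAll

open Pool.Agent.TFQ Pool.Agent.TKAll Pool.Agent.TQ

theorem t_QP1 : QP1_stmt := QP1
theorem t_QP3 : QP3_stmt := QP3 t_KP2
theorem t_QP4 : QP4_stmt := QP4 t_KP2
theorem t_QD4 : QD4_stmt := QD4
theorem t_QD5 : QD5_stmt := QD5 t_QD4
theorem t_QD6 : QD6_stmt := QD6
theorem t_QD7 : QD7_stmt := QD7 t_KD1
theorem t_QD8 : QD8_stmt := QD8 t_KD1 t_KD2 t_KD3 t_QP4
theorem t_QD9 : QD9_stmt := QD9 t_KA5 t_KA6 t_KA7 t_QD5 t_QD6 t_QD7 t_QD8 t_QP1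
theorem t_QD10 : QD10_stmt := QD10 t_KA3 t_KA5 t_KA7 t_QD9 t_KQ1
theorem t_QPL : QPL_stmt := QPL Pool.Agent.FJ.B1 Pool.Agent.FJ.C6
theorem t_QH1 : QH1_stmt := QH1 t_KA7 t_KB1 t_QD10 Pool.Agent.FJ.B1
theorem t_QB2 : QB2_stmt := QB2 t_KA4 t_KB6 t_KCC t_QH1 Pool.Agent.FJ.B1 Pool.Agent.FJ.t_G2
theorem t_QG1 : QG1_stmt := QG1
theorem t_QG2 : QG2_stmt := QG2 t_QG1
theorem t_QB3 : QB3_stmt := QB3 t_QG2 t_QP3 t_NB1
theorem t_QCF : QCF_stmt := QCF t_NB1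
theorem t_QDR : QDR_stmt := QDR t_NB1
theorem t_QPF : QPF_stmt := QPF Pool.Agent.FJ.B1 Pool.Agent.FJ.C6
theorem t_QP2D : QP2D_stmt := QP2D t_QPF

end Pool.Agent.TFQAll
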