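import Pool.Agent.helper46.TD.SpecL
import Pool.Agent.helper39.TQ.SpecN

/-!
# Project tfq (MP_3703a7_ag, rows fq:XX): THE RELATION FOR THE FROBENIUS OVER ANY FINITE FIELD `F`

`q` (coefficients) is any prime, `F` a finite field with `Q = cq F` elements (the letter `Q`), `e : F →+* K` a homomorphism to an algebraically closed field of characteristic `p`, `Q = p^M`.
The old statements KD4 - KD10, KP1, KP3, KP4, KG1, KG2, KH1 (project tk: `Pool/Agent/helper47/TK/SpecD.lean`, `SpecN.lean`, `SpecH.lean`) and NB2, NB3 (project tq: `Pool/Agent/helper39/TQ/SpecN.lean`) are the case `F = ZMod p`. All rows are ADAPTATIONS of landed files: copy the file,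
replace `ZMod p` by `F`, `p - 1` by `cq F - 1`, `p ^ i` (as exponents of Frobenius) by `cq F ^ i`, `cst K p` by `e`, `bK K a` by `bQ e a`, `gp`, `Gd`, `chi`, `HH`, `IsPhi`, `IsQ`, `dQ` by `gq`, `Gq`, `chq`, `HQ`, `IsPhiQ`, `IsQQ`, `dQQ`.

Rules: every `XX_stmt` is proved in `Pool/Agent/<seat>/TFQ/XX.lean`: `import Pool.Agent.helper47.TFQ.Spec`, `set_option autoImplicit false`, `namespace Pool.Agent.TFQ`, the open lines of this file, `noncomputable section`,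
`theorem XX (h : YY_stmt) ... : XX_stmt`; hypotheses: other statements of the project (not circularly) and ANY proved statement of the older projects (`TK.KA1_stmt` - `TK.KA7_stmt`, `TK.KB1_stmt`, `TK.KB6_stmt`, `TK.KCC_stmt`, `TK.KD1_stmt` - `TK.KD3_stmt`, `TK.KP2_stmt`, `TK.KQ1_stmt`, `FJ.B1_stmt`, `FJ.G2_stmt`,
`FJ.C6_stmt`, ..). Auxiliary lemmas are prefixed `XX_`. No sorry, no double quotes, no `congr!`, no `convert`. If a statement is false or awkward: tell helper47 at once.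
-/

set_option autoImplicit false

namespace Pool.Agent.TFQ

open Polynomial Pool.Agent.GJ Pool.Agent.TK
open Pool.Agent.FJ (VT Om chiO IsFrobO rf rs)
open Pool.Agent.TD (zK)

noncomputable section

/-- the number of elements of a finite field -/
abbrev cq (F : Type) [Fintype F] : ℕ := Fintype.card F

/-- `(-1)^α = 1`: `(-1)^(l α) = (-1)^(Q - 1) = 1` and `l` is odd. (`α` is even if `p > 2`, and `-1 = 1` if `p = 2`.) -/
theorem neg_one_pow_al {F : Type} [Field F] [Fintype F] {l α : ℕ} (hl : l.Prime) (h2 : 2 < l)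
    (h : l * α = cq F - 1) : (-1 : F) ^ α = 1 := by
  have h1 : (-1 : F) ^ (cq F - 1) = 1 := FiniteField.pow_card_sub_one_eq_one (-1) (neg_ne_zero.2 one_ne_zero)
  rw [← h, pow_mul, (hl.odd_of_ne_two (by omega)).neg_one_pow] at h1
  exact h1

section defs
variable {F : Type} [Field F]

/-- the monic polynomial of degree `d` with coefficients `c` -/
def gq {d : ℕ} (c : Fin d → F) : F[X] := X ^ d + ∑ i : Fin d, C (c i) * X ^ (i : ℕ)

/-- the branch points in `K` -/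
abbrev bQ {K : Type} [Field K] (e : F →+* K) {n : ℕ} (a : Fin (n + 1) → F) (j : Fin (n + 1)) : K := e (a j)

/-- `χ(w) = ∏ w_j^(μ_j α)` -/
def chq {n : ℕ} (α : ℕ) (μ : Fin (n + 1) → ℕ) (w : Fin (n + 1) → F) : F := ∏ j, w j ^ (μ j * α)

variable [Fintype F] [DecidableEq F]

/-- the monic polynomials of degree `d` prime to `∏ (x - a_j)` -/
def Gq {n : ℕ} (a : Fin (n + 1) → F) (d : ℕ) : Finset (Fin d → F) :=
  Finset.univ.filter fun c => ∀ j, (gq c).eval (a j) ≠ 0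

/-- the group `H` of the covering `X → C` -/
def HQ {n : ℕ} (α : ℕ) (μ : Fin (n + 1) → ℕ) : Finset (Fin (n + 1) → Fˣ) :=
  Finset.univ.filter fun w => chq α μ (fun j => (w j : F)) = 1

/-- `Φ` is the norm of the function `∑ β_j y_j - 1` to `C`: for every homomorphism `E` to a ring with elements `t_j`, `t_j^(Q-1) = E(x - a_j)`, `∏ t_j^(μ_j α) = E y` -/
def IsPhiQ {K : Type} [Field K] (e : F →+* K) {l n : ℕ} (α : ℕ) {μ : Fin (n + 1) → ℕ} (a : Fin (n + 1) → F)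
    (β : Fin (n + 1) → K) (Φ : CR K l μ (bQ e a)) : Prop :=
  ∀ (B : Type) [CommRing B] (E : CR K l μ (bQ e a) →+* B) (t : Fin (n + 1) → B),
    (∀ j, t j ^ (cq F - 1) = E (CR.x - algebraMap K _ (bQ e a j))) → E CR.y = ∏ j, t j ^ (μ j * α) →
    E Φ = ∏ w ∈ HQ (F := F) α μ, (∑ j, E (algebraMap K _ (β j * e (w j : F))) * t j - 1)

/-- the points `Q_g` of `C`, for a point `q = (u, v)` -/
def IsQQ {K : Type} [Field K] (e : F →+* K) {l n : ℕ} (α : ℕ) {μ : Fin (n + 1) → ℕ} (a : Fin (n + 1) → F)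
    (q : Pc K l μ (bQ e a)) (P : (d : ℕ) → (Fin d → F) → Pc K l μ (bQ e a)) : Prop :=
  ∀ d ≤ n, ∀ c ∈ Gq a d, (P d c).1 =
    (q.1.1 ^ cq F ^ (n - d), e (chq α μ fun j => (gq c).eval (a j)) * q.1.2 ^ cq F ^ (n - d))

/-- the divisor of the `Q_g` -/
def dQQ {K : Type} [Field K] (e : F →+* K) {l n : ℕ} {μ : Fin (n + 1) → ℕ} (a : Fin (n + 1) → F)
    (P : (d : ℕ) → (Fin d → F) → Pc K l μ (bQ e a)) : Multiset (Pc K l μ (bQ e a)) :=
  ∑ d ∈ Finset.range (n + 1), ∑ c ∈ Gq a d, {P d c}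

end defs

/-! ## Polynomials over `F` -/

/-- QP1 (short; adapt `Pool/Agent/helper60/TK/KP1.lean`). The number of the monic polynomials of degree at most `n` prime to `∏ (x - a_j)`: `(c, g) ↦ (c g(a_j))_j` is a bijection of `Fˣ × ⋃ Gq` onto `(Fˣ)^(n+1)`. -/
def QP1_stmt : Prop := ∀ (F : Type) [Field F] [Fintype F] [DecidableEq F] (n : ℕ) (a : Fin (n + 1) → F),
  Function.Injective a → ∑ d ∈ Finset.range (n + 1), (Gq a d).card = (cq F - 1) ^ n

/-- QP3 (short; adapt `Pool/Agent/helper19/TK/KP3.lean`; uses TK.KP2_stmt, which is for all fields). Monic polynomials of degree `n` and the hyperplane. -/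
def QP3_stmt : Prop := ∀ (F : Type) [Field F] [Fintype F] [DecidableEq F] (n : ℕ) (a : Fin (n + 1) → F),
  Function.Injective a → ∀ (M : Type) [AddCommMonoid M] (f : (Fin (n + 1) → F) → M),
  ∑ c ∈ Gq a n, f (fun j => (gq c).eval (a j)) =
    ∑ w : Fin (n + 1) → F, if ∑ j, lm a j * w j = 1 ∧ ∀ j, w j ≠ 0 then f w else 0

/-- QP4 (short; adapt `Pool/Agent/helper99/TK/KP4.lean`; uses TK.KP2_stmt). THE POINTS LIE ON THE HYPERPLANE. `(x - y)^(Q^i) = x^(Q^i) - y^(Q^i)` in `K` as `Q^i = p^(M i)` (`sub_pow_char_pow`); `e(c)^(Q^i) = e(c)` (`FiniteField.pow_card_pow`). -/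
def QP4_stmt : Prop := ∀ (F : Type) [Field F] [Fintype F] [DecidableEq F] (K : Type) [Field K] (p M n : ℕ) [Fact p.Prime]
  [CharP K p] (e : F →+* K), cq F = p ^ M → ∀ (a : Fin (n + 1) → F), Function.Injective a →
  ∀ (d m : ℕ), d + m = n → ∀ c ∈ Gq a d, ∀ (u : K) (v : Fin (n + 1) → K),
    (∀ j, v j ≠ 0 ∧ v j ^ (cq F - 1) = u - e (a j)) →
    ∑ j, (e (lm a j) / v j) * ((-1) ^ m * e ((gq c).eval (a j)) * v j ^ cq F ^ m) = 1

/-! ## The function -/

/-- QD4 (short; adapt `Pool/Agent/helper13/TK/KD4.lean`). Characters trivial on `H`. A generator of `Fˣ` (cyclic of order `Q - 1`). -/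
def QD4_stmt : Prop := ∀ (F : Type) [Field F] [Fintype F] [DecidableEq F] (l α n : ℕ) [Fact l.Prime]
  (μ : Fin (n + 1) → ℕ), l * α = cq F - 1 → 0 < α → (∀ j, 0 < μ j ∧ μ j < l) → ∀ e : Fin (n + 1) → ℕ,
  (∀ w ∈ HQ (F := F) α μ, ∏ j, (w j) ^ (e j) = 1) →
  ∃ k : ℕ, k < l ∧ ∀ j, ((cq F - 1 : ℕ) : ℤ) ∣ (e j : ℤ) - k * μ j * α

/-- QD5 (short-medium; adapt `Pool/Agent/helper19/TK/KD5.lean`; uses QD4). The function `Φ` exists. -/
def QD5_stmt : Prop := ∀ (F : Type) [Field F] [Fintype F] [DecidableEq F] (K : Type) [Field K] (e : F →+* K) (l α n : ℕ)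
  [Fact l.Prime] (μ : Fin (n + 1) → ℕ) (a : Fin (n + 1) → F) (β : Fin (n + 1) → K),
  l * α = cq F - 1 → 0 < α → (∀ j, 0 < μ j ∧ μ j < l) → ∃ Φ : CR K l μ (bQ e a), IsPhiQ e α a β Φ

/-- QD6 (medium; adapt `Pool/Agent/helper2/TK/KD6.lean`). The norm of `Φ` to `K[x, 1/f]` is a polynomial in `x` of degree at most `(Q-1)^n`. -/
def QD6_stmt : Prop := ∀ (F : Type) [Field F] [Fintype F] [DecidableEq F] (K : Type) [Field K] [IsAlgClosed K] (e : F →+* K)
  (l α n : ℕ) [Fact l.Prime] [NeZero (l : K)] (μ : Fin (n + 1) → ℕ) (a : Fin (n + 1) → F)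
  [Good K l μ (bQ e a)] (β : Fin (n + 1) → K) (Φ : CR K l μ (bQ e a)),
  l * α = cq F - 1 → 0 < α → IsPhiQ e α a β Φ →
  ∃ g : K[X], g.natDegree ≤ (cq F - 1) ^ n ∧
    Algebra.norm (BR K μ (bQ e a)) Φ = algebraMap K[X] _ g

/-- QD7 (short; adapt `Pool/Agent/helper13/TK/KD7.lean`; uses TK.KD1_stmt). `Φ ≠ 0`. (`Q > 2`; `(Q - 1 : K) = -1`: `FiniteField.cast_card_eq_zero` and `e`.) -/
def QD7_stmt : Prop := ∀ (F : Type) [Field F] [Fintype F] [DecidableEq F] (K : Type) [Field K] [IsAlgClosed K] (e : F →+* K)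
  (l α n : ℕ) [Fact l.Prime] (μ : Fin (n + 1) → ℕ) (a : Fin (n + 1) → F)
  [Good K l μ (bQ e a)] (β : Fin (n + 1) → K) (Φ : CR K l μ (bQ e a)),
  2 < l → l * α = cq F - 1 → 0 < α → β 0 ≠ 0 → IsPhiQ e α a β Φ → Φ ≠ 0

/-- QD8 (medium; adapt `Pool/Agent/helper11/TK/KD8.lean`; uses TK.KD1_stmt, TK.KD2_stmt, TK.KD3_stmt, QP4). The zeros of `Φ`. Where the old file uses that `α` is even, use `neg_one_pow_al` (`χ` of a constant `(-1)^m` is one). -/
def QD8_stmt : Prop := ∀ (F : Type) [Field F] [Fintype F] [DecidableEq F] (K : Type) [Field K] [IsAlgClosed K] (p M l α n : ℕ)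
  [Fact p.Prime] [CharP K p] (e : F →+* K), cq F = p ^ M → ∀ [Fact l.Prime] [NeZero (l : K)]
  (μ : Fin (n + 1) → ℕ) (a : Fin (n + 1) → F) [Good K l μ (bQ e a)] (q : Pc K l μ (bQ e a)) (v : Fin (n + 1) → K)
  (P : (d : ℕ) → (Fin d → F) → Pc K l μ (bQ e a)) (Φ : CR K l μ (bQ e a)),
  2 < l → l * α = cq F - 1 → 0 < α →
  (∀ i j : ℕ, i < j → j ≤ n → q.1.1 ^ cq F ^ i ≠ q.1.1 ^ cq F ^ j) →
  (∀ j, v j ≠ 0 ∧ v j ^ (cq F - 1) = q.1.1 - bQ e a j) → ∏ j, v j ^ (μ j * α) = q.1.2 →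
  IsPhiQ e α a (fun j => e (lm a j) / v j) Φ → IsQQ e α a q P → Φ ∈ dvI (dQQ e a P)

/-- QD9 (medium; adapt `Pool/Agent/helper43/TK/KD9.lean`; uses TK.KA5_stmt, TK.KA6_stmt, TK.KA7_stmt, QD5, QD6, QD7, QD8, QP1). The relation for general points. -/
def QD9_stmt : Prop := ∀ (F : Type) [Field F] [Fintype F] [DecidableEq F] (K : Type) [Field K] [IsAlgClosed K] (p M l α n : ℕ)
  [Fact p.Prime] [CharP K p] (e : F →+* K), cq F = p ^ M → ∀ [Fact l.Prime] [NeZero (l : K)]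
  (μ : Fin (n + 1) → ℕ) (a : Fin (n + 1) → F) [Good K l μ (bQ e a)] [IsDedekindDomain (CR K l μ (bQ e a))]
  (q : Pc K l μ (bQ e a)) (P : (d : ℕ) → (Fin d → F) → Pc K l μ (bQ e a)), 2 < l → l * α = cq F - 1 → 0 < α →
  (∀ i j : ℕ, i < j → j ≤ n → q.1.1 ^ cq F ^ i ≠ q.1.1 ^ cq F ^ j) → IsQQ e α a q P →
  ∏ d ∈ Finset.range (n + 1), ∏ c ∈ Gq a d, cl (P d c) = 1

/-- QD10 (medium; adapt `Pool/Agent/helper28/TK/KD10.lean`; uses TK.KA4_stmt, TK.KA5_stmt, TK.KA7_stmt, TK.KQ1_stmt, QD9). The relation for all points. `x ↦ x^Q` is the automorphism `iterateFrobeniusEquiv K p M` of `K`. -/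
def QD10_stmt : Prop := ∀ (F : Type) [Field F] [Fintype F] [DecidableEq F] (K : Type) [Field K] [IsAlgClosed K] (p M l α n : ℕ)
  [Fact p.Prime] [CharP K p] (e : F →+* K), cq F = p ^ M → ∀ [Fact l.Prime] [NeZero (l : K)]
  (μ : Fin (n + 1) → ℕ) (a : Fin (n + 1) → F) [Good K l μ (bQ e a)] [IsDedekindDomain (CR K l μ (bQ e a))]
  (q : Pc K l μ (bQ e a)) (P : (d : ℕ) → (Fin d → F) → Pc K l μ (bQ e a)), 2 < l → l * α = cq F - 1 → 0 < α →
  IsQQ e α a q P → ∏ d ∈ Finset.range (n + 1), ∏ c ∈ Gq a d, cl (P d c) = 1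

/-! ## Places -/

/-- A place `O` of `Om` and an automorphism `σ` which is the `Q`-th power on the residue field, `F` a subfield with `Q` elements of the residue field (embedded by `e`); `σ` fixes the branch points `a_j`, and `A j ∈ F` is the reduction of `a_j`;
`χ` is the character of order `l` of `F` with `χ(x) ≡ x^α`. (The case `F = ZMod p` is `TK.IsPl`.) -/
structure IsPlQ {l n : ℕ} [Fact l.Prime] (a : Fin (n + 1) → Om) {F : Type} [Field F] [Fintype F] (α : ℕ)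
    (O : ValuationSubring Om) (e : F →+* rf O) (χ : MulChar F Om) (σ : Om ≃+* Om) (A : Fin (n + 1) → F) : Prop where
  two : 2 < l
  eq : l * α = cq F - 1
  pos : 0 < α
  ord : orderOf χ = l
  tei : ∀ x : F, x ≠ 0 → ∃ y : O, (y : Om) = χ x ∧ rs O y = e x ^ α
  frob : IsFrobO O σ (cq F)
  fix : ∀ j, σ (a j) = a j
  zeta : ∀ s : Om, s ^ l = 1 → σ s = s
  int : ∀ j, ∃ y : O, (y : Om) = a j ∧ rs O y = e (A j)
  inj : Function.Injective A

/-- QPL (medium; Teichmueller: adapt the file of FJ.E5_stmt (`grep -l` in `Pool/Agent/*/FJ/E5.lean`), and `Pool/Agent/helper91/TK/KPC.lean`, `Pool/Agent/helper59/TK/KH12.lean` for `A` and `D0`). THE PLACES. `D0` = `l` times the number of FJ.C6_stmt (a) for the `a_ij` and the inverses of their differences (so they are in `O`: the reductions of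
`a_ij` are different for fixed `i`). `F = {x ∈ rf O | x^Q = x}` (a subfield with `Q` elements: `rf O` is algebraically closed, FJ.B1_stmt; or `GaloisField p M` and an embedding), `e` the inclusion. `σ` fixes `a_ij`, so its reduction is in `F` (`IsFrobO`); `σ` fixes a primitive `l`-th root of unity `z`, its reduction `z'` has order `l` (`l ≠ 0` in `rf O`)
and is in `F`: `l ∣ Q - 1`, `α = (Q - 1)/l`. For `x ∈ Fˣ`: `e(x)^α` is an `l`-th root of unity, so `z'^(k(x))`, `χ(x) = z^(k(x))`, of order `l` since a generator of `Fˣ` has `e(x)^α` of order `l`. -/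
def QPL_stmt : Prop := ∀ (l : ℕ) [Fact l.Prime] (D : Dat l), 2 < l → ∃ D0 : ℕ, 0 < D0 ∧
  ∀ (p M : ℕ) [Fact p.Prime] (O : ValuationSubring Om) [CharP (rf O) p] (σ : Om ≃+* Om), 0 < M →
  IsFrobO O σ (p ^ M) → D.Fix σ → (∀ s : Om, s ^ l = 1 → σ s = s) → ((D0 : ℕ) : rf O) ≠ 0 →
  ∃ (F : Type) (_ : Field F) (_ : Fintype F) (_ : DecidableEq F) (α : ℕ) (e : F →+* rf O) (χ : MulChar F Om)
    (A : ∀ i, Fin (D.n i + 1) → F), cq F = p ^ M ∧ ∀ i, IsPlQ (l := l) (D.a i) α O e χ σ (A i)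

/-! ## The relation on `V_q` -/

section ops
variable {l n : ℕ} [Fact l.Prime] {μ : Fin (n + 1) → ℕ} {a : Fin (n + 1) → Om} [Good Om l μ a]
  (q : ℕ) [Fact q.Prime] {F : Type} [Field F] [Fintype F] [DecidableEq F]

variable (μ a) in
/-- `c_d = ∑ [χ(g)]` over the monic polynomials `g ∈ F[x]` of degree `d` prime to `∏ (x - a_j)`; `[ε]` maps `(u, v)` to `(u, ε v)` -/
def cfQ (χ : MulChar F Om) (A : Fin (n + 1) → F) (d : ℕ) : Module.End ℚ_[q] (VT q (JC Om l μ a)) :=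
  ∑ c ∈ Gq A d, zK q (ru l (∏ j, χ ((gq c).eval (A j)) ^ μ j))⁻¹

variable (μ a) in
/-- the operator `(-1)^n ∑ [∏ χ(w_j)^(μ_j)]` over the hyperplane `∑ λ_j w_j = 1` of `F^(n+1)` -/
def cWQ (χ : MulChar F Om) (lam : Fin (n + 1) → F) : Module.End ℚ_[q] (VT q (JC Om l μ a)) :=
  (-1) ^ n * ∑ w : Fin (n + 1) → F, if ∑ j, lam j * w j = 1 ∧ ∀ j, w j ≠ 0 then
    zK q (ru l (∏ j, χ (w j) ^ μ j))⁻¹ else 0

variable (μ a) in
/-- the adjoint of `cWQ` -/
def cWbQ (χ : MulChar F Om) (lam : Fin (n + 1) → F) : Module.End ℚ_[q] (VT q (JC Om l μ a)) :=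
  (-1) ^ n * ∑ w : Fin (n + 1) → F, if ∑ j, lam j * w j = 1 ∧ ∀ j, w j ≠ 0 then
    zK q (ru l (∏ j, χ (w j) ^ μ j)) else 0

end ops

/-- QH1 (medium; adapt `Pool/Agent/helper61/TK/KH1.lean`; uses TK.KA7_stmt, TK.KB1_stmt, QD10, FJ.B1_stmt). The relation in characteristic zero after specialisation. -/
def QH1_stmt : Prop := ∀ (l n : ℕ) [Fact l.Prime] (μ : Fin (n + 1) → ℕ) (a : Fin (n + 1) → Om) [Good Om l μ a]
  [IsDedekindDomain (CR Om l μ a)] (p M α : ℕ) [Fact p.Prime] (F : Type) [Field F] [Fintype F] [DecidableEq F]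
  (O : ValuationSubring Om) [CharP (rf O) p] (e : F →+* rf O) (χ : MulChar F Om) (σ : Om ≃+* Om) (A : Fin (n + 1) → F)
  (hP : IsPlQ (l := l) a α O e χ σ A), cq F = p ^ M → ∀ [Good (rf O) l μ (bQ e A)] [IsDedekindDomain (CR (rf O) l μ (bQ e A))]
  (a' : Fin (n + 1) → O) (h : ∀ j, O.subtype (a' j) = a j) (h' : ∀ j, rs O (a' j) = bQ e A j)
  (sp : ClassGroup (CR Om l μ a) →* ClassGroup (CR (rf O) l μ (bQ e A))), IsSp O h h' sp →
  ∀ C : ClassGroup (CR Om l μ a),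
    ∏ d ∈ Finset.range (n + 1), ∏ c ∈ Gq A d,
      sp (ClassGroup.mulEquiv (CR.aut (RingEquiv.refl Om) (fun _ => rfl)
        (ru l (∏ j, χ ((gq c).eval (A j)) ^ μ j))⁻¹)
        ((ClassGroup.mulEquiv (CR.aut σ hP.fix 1 : CR Om l μ a ≃+* CR Om l μ a))^[n - d] C)) = 1

/-- QB2 (short-medium; adapt `Pool/Agent/helper21/TQ/NB2.lean`; uses TK.KA4_stmt, TK.KB6_stmt, TK.KCC_stmt, FJ.B1_stmt, FJ.G2_stmt, QH1). THE RELATION ON `V_q(J_a)`: at almost all places the `Q`-Frobenius satisfies its equation of degree `n` over `ℤ[ζ]`. -/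
def QB2_stmt : Prop := ∀ (l n q : ℕ) [Fact l.Prime] [Fact q.Prime] (μ : Fin (n + 1) → ℕ) (a : Fin (n + 1) → Om)
  [Good Om l μ a], FiniteDimensional ℚ_[q] (VT q (JC Om l μ a)) → ∃ D0 : ℕ, 0 < D0 ∧
  ∀ (p M α : ℕ) [Fact p.Prime] (F : Type) [Field F] [Fintype F] [DecidableEq F]
    (O : ValuationSubring Om) [CharP (rf O) p] (e : F →+* rf O) (χ : MulChar F Om) (σ : Om ≃+* Om) (A : Fin (n + 1) → F)
    (hP : IsPlQ (l := l) a α O e χ σ A), cq F = p ^ M → ((D0 : ℕ) : rf O) ≠ 0 →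
    ∑ d ∈ Finset.range (n + 1), cfQ μ a q χ A d *
      (VT.map q (actA σ hP.fix (1 : rootsOfUnity l Om)) : Module.End ℚ_[q] (VT q (JC Om l μ a))) ^ (n - d) = 0

/-- the sum of `∏ χ(w_j)^(m μ_j)` over the hyperplane `∑ λ_j w_j = 1` of `F^(n+1)` -/
def cJQ {F : Type} [Field F] [Fintype F] [DecidableEq F] (χ : MulChar F Om) {n : ℕ} (μ : Fin (n + 1) → ℕ)
    (lam : Fin (n + 1) → F) (m : ℕ) : Om :=
  ∑ w : Fin (n + 1) → F, if ∑ j, lam j * w j = 1 then ∏ j, χ (w j) ^ (m * μ j) else 0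

/-- QG1 (short; adapt `Pool/Agent/helper7/TK/KG1.lean`). Gauss sums. -/
def QG1_stmt : Prop := ∀ (F : Type) [Field F] [Fintype F] [DecidableEq F] (χ : MulChar F Om) (ψ : AddChar F Om)
  (n : ℕ) (μ : Fin (n + 1) → ℕ) (lam : Fin (n + 1) → F) (m : ℕ), 0 < m → (∀ j, 0 < μ j) →
  χ ^ (m * ∑ j, μ j) ≠ 1 → (∀ j, lam j ≠ 0) →
  cJQ χ μ lam m * (∏ j, χ (lam j) ^ (m * μ j)) * gaussSum (χ ^ (m * ∑ j, μ j)) ψ =
    ∏ j, gaussSum (χ ^ (m * μ j)) ψ

/-- QG2 (short; adapt `Pool/Agent/helper61/TK/KG2.lean`; uses QG1). Absolute value. A primitive additive character of `F` with values in `Om`: `AddChar.FiniteField.primitiveChar` or `AddChar.exists_...`: Mathlib has primitive characters of finite fields with values in a cyclotomic ring `CyclotomicField`; or compose the trace `F → ZMod p` with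
the primitive character of `ZMod p` of the old file (`Algebra.trace` is surjective). -/
def QG2_stmt : Prop := ∀ (F : Type) [Field F] [Fintype F] [DecidableEq F] (l : ℕ) (χ : MulChar F Om) (n : ℕ)
  (μ : Fin (n + 1) → ℕ) (lam : Fin (n + 1) → F) (r : ℕ), l.Prime → orderOf χ = l →
  (∀ j, 0 < μ j ∧ μ j < l) → ¬ l ∣ ∑ j, μ j → (∀ j, lam j ≠ 0) → 0 < r → r < l →
  cJQ χ μ lam r * cJQ χ μ lam (l - r) = (cq F : Om) ^ n

/-- QB3 (short-medium; adapt `Pool/Agent/helper61/TQ/NB3.lean`; uses QG2, QP3, GJ.T2_stmt, and TQ.NB1_stmt or TD.NBK_stmt for the roots of unity on `V_q`). `cWQ * cWbQ = Q^n`; the last coefficient of the relation is `± cWQ`. -/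
def QB3_stmt : Prop := ∀ (l n q : ℕ) [Fact l.Prime] [Fact q.Prime] (μ : Fin (n + 1) → ℕ) (a : Fin (n + 1) → Om)
  [Good Om l μ a] [IsDedekindDomain (CR Om l μ a)] (F : Type) [Field F] [Fintype F] [DecidableEq F]
  (χ : MulChar F Om), orderOf χ = l →
  (∀ lam : Fin (n + 1) → F, (∀ j, lam j ≠ 0) →
    cWQ μ a q χ lam * cWbQ μ a q χ lam = (cq F : ℚ_[q]) ^ n • (1 : Module.End ℚ_[q] (VT q (JC Om l μ a))) ∧
    cWbQ μ a q χ lam * cWQ μ a q χ lam = (cq F : ℚ_[q]) ^ n • (1 : Module.End ℚ_[q] (VT q (JC Om l μ a)))) ∧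
  ∀ A : Fin (n + 1) → F, Function.Injective A →
    (-1) ^ n * cfQ (l := l) μ a q χ A n = cWQ (l := l) μ a q χ (lm A) ∧ cfQ (l := l) μ a q χ A 0 = 1

/-- QCF (short-medium; uses TQ.NB1_stmt (for the datum with the single curve `(μ, a)`) or TK.KA7_stmt for the multiplicativity of `zK`; compare `NB3_main` in `Pool/Agent/helper61/TQ/NB3.lean`). THE COEFFICIENTS ARE POLYNOMIALS IN `Z` WHICH DEPEND NEITHER ON `q` NOR ON THE BRANCH POINTS `a` (only on `F`, `χ`, `μ`, `A`). `z = s`. For `c ∈ Gq A d` the number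
`∏ χ(g(A_j))^(μ_j)` is an `l`-th root of unity, so `z^(k(c))`, `k(c) < l`; `P d = ∑_c X^(l - k(c))` if `k(c) > 0`, `X^0` if `k(c) = 0` (so `P 0 = 1`: `Gq A 0` has one element, `g = 1`). -/
def QCF_stmt : Prop := ∀ (l n : ℕ) [Fact l.Prime] (μ : Fin (n + 1) → ℕ) (F : Type) [Field F] [Fintype F] [DecidableEq F]
  (χ : MulChar F Om) (A : Fin (n + 1) → F) (s : rootsOfUnity l Om), Prim s → χ ^ l = 1 →
  ∃ P : ℕ → ℤ[X], P 0 = 1 ∧
    (∀ d, aeval ((s : Omˣ) : Om) (P d) = ∑ c ∈ Gq A d, (∏ j, χ ((gq c).eval (A j)) ^ μ j)⁻¹) ∧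
    ∀ (q : ℕ) [Fact q.Prime] (a : Fin (n + 1) → Om) [Good Om l μ a] [IsDedekindDomain (CR Om l μ a)] (d : ℕ),
      cfQ (l := l) μ a q χ A d =
        aeval (zK q s : Module.End ℚ_[q] (VT q (JC Om l μ a))) ((P d).map (Int.castRingHom ℚ_[q]))

/-- QDR (short; uses TQ.NB1_stmt for the multiplicativity of `zK`). THE DEPENDENCE ON `lam`. Substitute `w_j = (lam'_j / lam_j) w'_j` (a bijection of the hyperplanes): `ε = ∏ χ(lam'_j / lam_j)^(μ_j)`. The last equation: `zK` of the `l`-th power of a root of unity is one, and the `zK` commute. -/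
def QDR_stmt : Prop := ∀ (l n : ℕ) [Fact l.Prime] (μ : Fin (n + 1) → ℕ) (F : Type) [Field F] [Fintype F] [DecidableEq F]
  (χ : MulChar F Om) (lam lam' : Fin (n + 1) → F), χ ^ l = 1 → (∀ j, lam j ≠ 0) → (∀ j, lam' j ≠ 0) →
  ∃ ε : rootsOfUnity l Om, (∀ m : ℕ, cJQ χ μ lam m = ((ε : Omˣ) : Om) ^ m * cJQ χ μ lam' m) ∧
    ∀ (q : ℕ) [Fact q.Prime] (a : Fin (n + 1) → Om) [Good Om l μ a] [IsDedekindDomain (CR Om l μ a)],
      cWQ (l := l) μ a q χ lam = zK q ε⁻¹ * cWQ (l := l) μ a q χ lam' ∧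
      cWQ (l := l) μ a q χ lam ^ l = cWQ (l := l) μ a q χ lam' ^ l

end

end Pool.Agent.TFQ
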