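import Pool.Agent.helper47.TFQ.Spec

/-!
# Project tfq (MP_3703a7_ag): specification, part 2: `QPL` for any finite family of branch point tuples (for two data at once)
-/

set_option autoImplicit false

namespace Pool.Agent.TFQ

open Polynomial Pool.Agent.GJ Pool.Agent.TK
open Pool.Agent.FJ (VT Om chiO IsFrobO rf rs)
open Pool.Agent.TD (zK)

noncomputable section

/-- QPF: THE PLACES, for a finite family of tuples `a i` of different elements (the proof of QPL). -/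
def QPF_stmt : Prop := ∀ (l : ℕ) [Fact l.Prime] (I : Type) [Fintype I] (n : I → ℕ) (a : ∀ i, Fin (n i + 1) → Om),
  (∀ i, Function.Injective (a i)) → 2 < l → ∃ D0 : ℕ, 0 < D0 ∧
  ∀ (p M : ℕ) [Fact p.Prime] (O : ValuationSubring Om) [CharP (rf O) p] (σ : Om ≃+* Om), 0 < M →
  IsFrobO O σ (p ^ M) → (∀ i j, σ (a i j) = a i j) → (∀ s : Om, s ^ l = 1 → σ s = s) → ((D0 : ℕ) : rf O) ≠ 0 →
  ∃ (F : Type) (_ : Field F) (_ : Fintype F) (_ : DecidableEq F) (α : ℕ) (e : F →+* rf O) (χ : MulChar F Om)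
    (A : ∀ i, Fin (n i + 1) → F), cq F = p ^ M ∧ ∀ i, IsPlQ (l := l) (a i) α O e χ σ (A i)

/-- QP2D: THE PLACES, for two data at once, with the same `F`, `α`, `e`, `χ`. -/
def QP2D_stmt : Prop := ∀ (l : ℕ) [Fact l.Prime] (D D' : Dat l), 2 < l → ∃ D0 : ℕ, 0 < D0 ∧
  ∀ (p M : ℕ) [Fact p.Prime] (O : ValuationSubring Om) [CharP (rf O) p] (σ : Om ≃+* Om), 0 < M →
  IsFrobO O σ (p ^ M) → D.Fix σ → D'.Fix σ → (∀ s : Om, s ^ l = 1 → σ s = s) → ((D0 : ℕ) : rf O) ≠ 0 →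
  ∃ (F : Type) (_ : Field F) (_ : Fintype F) (_ : DecidableEq F) (α : ℕ) (e : F →+* rf O) (χ : MulChar F Om)
    (A : ∀ i, Fin (D.n i + 1) → F) (A' : ∀ i, Fin (D'.n i + 1) → F), cq F = p ^ M ∧
    (∀ i, IsPlQ (l := l) (D.a i) α O e χ σ (A i)) ∧ ∀ i, IsPlQ (l := l) (D'.a i) α O e χ σ (A' i)

end

end Pool.Agent.TFQ
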